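import Pool.Agent.Helper59.MB.Goals3

/-!
# Project MB (MP_49a1ce_an): goal ERT
-/

set_option autoImplicit false

open MeasureTheory Filter Topology Finset

namespace Pool.Agent.Helper36.MB

open Pool.Agent.Helper59.MB

/-- Goal ERT. -/
theorem t_ERT : S_ERT := by
  intro Y Z _ _ T μ S ν q hμ hT hS hI hE
  obtain ⟨φ, ψ, hφ, hψ, hc, hψφ, hφψ⟩ := hI
  have h1 : ∀ n : ℕ, ∀ᵐ x ∂μ, φ (T^[n] x) = S^[n] (φ x) := by
    intro n
    induction n with
    | zero => exact Eventually.of_forall fun x => rfl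
    | succ n ih =>
      have h2 := hT.quasiMeasurePreserving.ae ih
      filter_upwards [h2, hc] with x hx hx'
      rw [Function.iterate_succ_apply, Function.iterate_succ_apply, hx, hx']
  have h2 : ∀ᵐ y ∂ν, ψ (S^[q] y) = T^[q] (ψ y) := by
    have h3 := hψ.quasiMeasurePreserving.ae (h1 q)
    have h4 := hψ.quasiMeasurePreserving.ae ((hT.iterate q).quasiMeasurePreserving.ae hψφ)
    filter_upwards [h3, h4, hφψ] with y ha hb hd
    rw [← hb, ha, hd]
  refine { toMeasurePreserving := hT.iterate q, aeconst_set := ?_ }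
  intro B hB hinv
  rw [← hψ.aeconst_preimage hB.nullMeasurableSet]
  have h5 : S^[q] ⁻¹' (ψ ⁻¹' B) =ᵐ[ν] ψ ⁻¹' B := by
    have h6 : (fun y => (T^[q] (ψ y) ∈ B)) = fun y => (ψ y ∈ B) := by
      funext y
      have : (T^[q] (ψ y) ∈ B) = (ψ y ∈ T^[q] ⁻¹' B) := rfl
      rw [this, hinv]
    filter_upwards [h2] with y hy
    have h7 : (ψ (S^[q] y) ∈ B) = (ψ y ∈ B) := by
      rw [hy]
      exact congrFun h6 y
    exact h7
  exact hE.quasiErgodic.aeconst_set₀ (hψ.measurable hB).nullMeasurableSet h5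

end Pool.Agent.Helper36.MB
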