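import Pool.Agent.Helper59.MB.Goals1

set_option autoImplicit false

open MeasureTheory Filter Topology Finset

namespace Pool.Agent.Helper36.MB

open Pool.Agent.Helper59.MB

theorem iter_val (s : ℕ → ℕ) (V : ℕ → Set (ℕ → ℝ)) (m : Measure A) [IsProbabilityMeasure m]
    (x : X s V m) (n : ℕ) : (((⇑(TX s V m))^[n] x : X s V m) : Bas) = (⇑TB)^[n] (x : Bas) := by
  induction n with
  | zero => rfl
  | succ n ih =>
    rw [Function.iterate_succ_apply', Function.iterate_succ_apply', ← ih]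
    rfl

theorem exists_const {Y : Type} (y0 : Y) (S : ℕ → Y → ℝ)
    (h : ∀ ε > 0, ∃ (C : ℝ) (N₀ : ℕ), ∀ N ≥ N₀, ∀ x : Y, |S N x - C * N| ≤ ε * N) :
    ∃ c : ℝ, ∀ ε > 0, ∃ N₀ : ℕ, ∀ N ≥ N₀, ∀ x : Y, |S N x - c * N| ≤ ε * N := by
  have h' : ∀ k : ℕ, ∃ (C : ℝ) (N₀ : ℕ), ∀ N ≥ N₀, ∀ x : Y,
      |S N x - C * N| ≤ (1 / ((k : ℝ) + 1)) * N := fun k => h _ (by positivity)
  choose C N₀ hC using h'
  have hdist : ∀ k l n : ℕ, n ≤ k → n ≤ l → dist (C k) (C l) ≤ 2 / ((n : ℝ) + 1) := by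
    intro k l n hk hl
    obtain ⟨N, hN⟩ : ∃ N : ℕ, N = max (max (N₀ k) (N₀ l)) 1 := ⟨_, rfl⟩
    have h1 := hC k N (by rw [hN]; exact le_max_of_le_left (le_max_left _ _)) y0
    have h2 := hC l N (by rw [hN]; exact le_max_of_le_left (le_max_right _ _)) y0
    have hN1 : (1 : ℝ) ≤ N := by
      rw [hN]
      exact_mod_cast le_max_right _ _
    have h3 : (1 / ((k : ℝ) + 1)) ≤ 1 / ((n : ℝ) + 1) := by
      have : (n : ℝ) ≤ k := by exact_mod_cast hk
      gcongr
    have h4 : (1 / ((l : ℝ) + 1)) ≤ 1 / ((n : ℝ) + 1) := by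
      have : (n : ℝ) ≤ l := by exact_mod_cast hl
      gcongr
    rw [Real.dist_eq]
    have h5 : |C k - C l| * N ≤ (2 / ((n : ℝ) + 1)) * N := by
      calc |C k - C l| * N = |(S N y0 - C l * N) - (S N y0 - C k * N)| := by
            rw [← abs_of_nonneg (by positivity : (0 : ℝ) ≤ N), ← abs_mul,
              abs_of_nonneg (by positivity : (0 : ℝ) ≤ N)]
            congr 1
            ring
        _ ≤ |S N y0 - C l * N| + |S N y0 - C k * N| := abs_sub _ _
        _ ≤ (1 / ((l : ℝ) + 1)) * N + (1 / ((k : ℝ) + 1)) * N := add_le_add h2 h1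
        _ ≤ (1 / ((n : ℝ) + 1)) * N + (1 / ((n : ℝ) + 1)) * N := by gcongr
        _ = (2 / ((n : ℝ) + 1)) * N := by ring
    exact le_of_mul_le_mul_right h5 (by linarith)
  have hlim : Tendsto (fun n : ℕ => 2 / ((n : ℝ) + 1)) atTop (𝓝 0) := by
    have := (tendsto_one_div_add_atTop_nhds_zero_nat (𝕜 := ℝ)).const_mul 2
    simpa [div_eq_mul_inv] using this
  have hcau : CauchySeq C := cauchySeq_of_le_tendsto_0 _ (fun k l n hk hl => hdist k l n hk hl) hlim
  obtain ⟨c, hc⟩ := cauchySeq_tendsto_of_complete hcau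
  have hck : ∀ k : ℕ, |C k - c| ≤ 2 / ((k : ℝ) + 1) := by
    intro k
    have h1 : Tendsto (fun l => |C k - C l|) atTop (𝓝 |C k - c|) :=
      (tendsto_const_nhds.sub hc).abs
    refine le_of_tendsto h1 ?_
    filter_upwards [eventually_ge_atTop k] with l hl
    have := hdist k l k le_rfl hl
    rwa [Real.dist_eq] at this
  refine ⟨c, ?_⟩
  intro ε hε
  obtain ⟨k, hk⟩ := exists_nat_gt (3 / ε)
  refine ⟨N₀ k, fun N hN x => ?_⟩
  have h1 := hC k N hN x
  have h2 : 3 / ((k : ℝ) + 1) ≤ ε := by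
    rw [div_le_iff₀ (by positivity)]
    rw [div_lt_iff₀ hε] at hk
    nlinarith
  calc |S N x - c * N| = |(S N x - C k * N) + (C k - c) * N| := by
        congr 1
        ring
    _ ≤ |S N x - C k * N| + |(C k - c) * N| := abs_add_le _ _
    _ ≤ (1 / ((k : ℝ) + 1)) * N + 2 / ((k : ℝ) + 1) * N := by
        refine add_le_add h1 ?_
        rw [abs_mul, abs_of_nonneg (by positivity : (0 : ℝ) ≤ N)]
        exact mul_le_mul_of_nonneg_right (hck k) (by positivity)
    _ = 3 / ((k : ℝ) + 1) * N := by ring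
    _ ≤ ε * N := by gcongr

theorem main_est (hDNS : S_DNS) (s : ℕ → ℕ) (V : ℕ → Set (ℕ → ℝ)) (m : Measure A)
    [IsProbabilityMeasure m] (hs : StrictMono s) (hcl : IsClosed (X s V m)) (u : ℕ → ℝ)
    (hu : ∀ n, |u n| ≤ 1) (c' : Sp → ℝ)
    (hc : ∀ c : Sp, ∀ ε > 0, ∃ N₀ : ℕ, ∀ N ≥ N₀, ∀ x ∈ X s V m,
      |∑ n ∈ Icc 1 N, Fc s c ((⇑TB)^[n] x) * u n - c' c * N| ≤ ε * N)
    (f : C(X s V m, ℝ)) (ε : ℝ) (hε : 0 < ε) :
    ∃ (J : Finset Sp) (a : Sp → ℝ) (N₀ : ℕ), ∀ N ≥ N₀, ∀ x : X s V m,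
      |∑ n ∈ Icc 1 N, f ((⇑(TX s V m))^[n] x) * u n - (∑ c ∈ J, a c * c' c) * N| ≤ ε * N := by
  obtain ⟨J, a, ha⟩ := hDNS s hs (X s V m) hcl f (ε / 2) (by linarith)
  obtain ⟨B, hB⟩ : ∃ B : ℝ, B = ∑ c ∈ J, |a c| + 1 := ⟨_, rfl⟩
  have hB0 : 0 < B := by
    have : 0 ≤ ∑ c ∈ J, |a c| := Finset.sum_nonneg fun _ _ => abs_nonneg _
    linarith
  choose N₀ hN₀ using fun c => hc c (ε / (2 * B)) (by positivity)
  refine ⟨J, a, J.sup N₀, fun N hN x => ?_⟩
  have h1 : ∑ n ∈ Icc 1 N, f ((⇑(TX s V m))^[n] x) * u n - (∑ c ∈ J, a c * c' c) * N =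
      ∑ n ∈ Icc 1 N, (f ((⇑(TX s V m))^[n] x) - ∑ c ∈ J, a c * Fc s c ((⇑TB)^[n] (x : Bas))) * u n +
      ∑ c ∈ J, a c * (∑ n ∈ Icc 1 N, Fc s c ((⇑TB)^[n] (x : Bas)) * u n - c' c * N) := by
    have h2 : ∑ c ∈ J, a c * (∑ n ∈ Icc 1 N, Fc s c ((⇑TB)^[n] (x : Bas)) * u n - c' c * N) =
        ∑ n ∈ Icc 1 N, (∑ c ∈ J, a c * Fc s c ((⇑TB)^[n] (x : Bas))) * u n -
          (∑ c ∈ J, a c * c' c) * N := by
      simp only [mul_sub, Finset.sum_sub_distrib, Finset.sum_mul, Finset.mul_sum]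
      rw [Finset.sum_comm]
      congr 1
      · apply Finset.sum_congr rfl
        intro n _
        apply Finset.sum_congr rfl
        intro c _
        ring
      · apply Finset.sum_congr rfl
        intro c _
        ring
    rw [h2]
    simp only [sub_mul, Finset.sum_sub_distrib]
    ring
  rw [h1]
  have h3 : |∑ n ∈ Icc 1 N, (f ((⇑(TX s V m))^[n] x) -
      ∑ c ∈ J, a c * Fc s c ((⇑TB)^[n] (x : Bas))) * u n| ≤ ε / 2 * N := by
    refine (Finset.abs_sum_le_sum_abs _ _).trans ?_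
    calc ∑ n ∈ Icc 1 N, |(f ((⇑(TX s V m))^[n] x) -
          ∑ c ∈ J, a c * Fc s c ((⇑TB)^[n] (x : Bas))) * u n| ≤ ∑ n ∈ Icc 1 N, ε / 2 := by
          apply Finset.sum_le_sum
          intro n _
          rw [abs_mul]
          have h4 := ha ((⇑(TX s V m))^[n] x)
          rw [iter_val] at h4
          calc _ ≤ ε / 2 * 1 := mul_le_mul h4 (hu n) (abs_nonneg _) (by linarith)
            _ = ε / 2 := mul_one _
      _ = ε / 2 * N := by
          rw [Finset.sum_const, Nat.card_Icc, nsmul_eq_mul]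
          push_cast
          ring
  have h5 : |∑ c ∈ J, a c * (∑ n ∈ Icc 1 N, Fc s c ((⇑TB)^[n] (x : Bas)) * u n - c' c * N)| ≤
      ε / 2 * N := by
    refine (Finset.abs_sum_le_sum_abs _ _).trans ?_
    calc ∑ c ∈ J, |a c * (∑ n ∈ Icc 1 N, Fc s c ((⇑TB)^[n] (x : Bas)) * u n - c' c * N)| ≤
          ∑ c ∈ J, |a c| * (ε / (2 * B) * N) := by
          apply Finset.sum_le_sum
          intro c hcJ
          rw [abs_mul]
          exact mul_le_mul_of_nonneg_left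
            (hN₀ c N ((Finset.le_sup hcJ).trans hN) x x.2) (abs_nonneg _)
      _ = (∑ c ∈ J, |a c|) * (ε / (2 * B) * N) := by rw [Finset.sum_mul]
      _ ≤ B * (ε / (2 * B) * N) := by
          apply mul_le_mul_of_nonneg_right _ (by positivity)
          linarith
      _ = ε / 2 * N := by field_simp
  calc _ ≤ ε / 2 * N + ε / 2 * N := (abs_add_le _ _).trans (add_le_add h3 h5)
    _ = ε * N := by ring

theorem s0_mono : StrictMono s0 := by
  intro a b h
  unfold s0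
  have : a + 10 < b + 10 := by omega
  exact Nat.pow_lt_pow_left this (by norm_num)

theorem t_XUE (hFCA : S_FCA) (hFCM : S_FCM) (hDNS : S_DNS) : S_XUE := by
  constructor
  · intro s V m _ hPar hcl f
    have hs : StrictMono s := (hPar 0).mono
    by_cases hne : Nonempty (X s V m)
    · obtain ⟨x0⟩ := hne
      choose c' hc' using hFCA s V m hPar
      apply exists_const x0 (fun N x => ∑ n ∈ Icc 1 N, f ((⇑(TX s V m))^[n] x))
      intro ε hε
      obtain ⟨J, a, N₀, h⟩ := main_est hDNS s V m hs hcl (fun _ => 1) (by simp) c'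
        (by
          intro c ε hε
          obtain ⟨N₀, h⟩ := hc' c ε hε
          exact ⟨N₀, fun N hN x hx => by simpa using h N hN x hx⟩) f ε hε
      exact ⟨_, N₀, fun N hN x => by simpa using h N hN x⟩
    · exact ⟨0, fun ε _ => ⟨0, fun N _ x => absurd ⟨x⟩ hne⟩⟩
  · intro m _ hcl f ε hε
    have hmu : ∀ n : ℕ, mu (n : ℤ) = ((ArithmeticFunction.moebius n : ℤ) : ℝ) := by
      intro n
      simp [mu]
    obtain ⟨J, a, N₀, h⟩ := main_est hDNS s0 (VM s0) m s0_mono hcl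
      (fun n => ((ArithmeticFunction.moebius n : ℤ) : ℝ)) (by
        intro n
        have := ArithmeticFunction.abs_moebius_le_one (n := n)
        exact_mod_cast this) (fun _ => 0)
      (by
        intro c ε hε
        obtain ⟨N₀, h⟩ := hFCM m c ε hε
        refine ⟨N₀, fun N hN x hx => ?_⟩
        have := h N hN x hx
        simp only [hmu] at this
        simpa using this) f ε hε
    refine ⟨N₀, fun N hN x => ?_⟩
    have := h N hN x
    simpa using this

end Pool.Agent.Helper36.MB
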